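import Pool.Agent.EVF.StmtsF

/-! Squad EVF, row PRN (helper13): a nodal polynomial is prime or zero. -/

namespace Pool.Agent.EVF.H13

open Pool.Agent.EVF

theorem prn : PrnStmt := by
  rintro k r s M φ ⟨t₀, z₀, q, ψ, hφ, -⟩ h0
  refine ⟨h0, ?_, ?_⟩
  · intro hu
    have h1 := (hφ 1).mpr hu.dvd
    rw [map_one] at h1
    exact one_ne_zero h1
  · intro a b hab
    have h1 := (hφ (a * b)).mpr hab
    rw [map_mul, mul_eq_zero] at h1
    exact h1.imp (hφ a).mp (hφ b).mp

end Pool.Agent.EVF.H13
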