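import Pool.Agent.EVF.StmtsR

/-! Squad EVF, row SMV (helper13): small values of binary forms are rare. -/

namespace Pool.Agent.EVF.H13

open Pool.Agent.EVF Pool.Agent.RAD

/-- the polynomial `φ(T, b)` -/
noncomputable def Rb (φ : MvPolynomial (Fin 2) ℤ) (b : ℤ) : Polynomial ℤ :=
  MvPolynomial.aeval ![Polynomial.X, Polynomial.C b] φ

theorem Rb_sum (φ : MvPolynomial (Fin 2) ℤ) (b : ℤ) :
    Rb φ b = ∑ d ∈ φ.support, Polynomial.C (φ.coeff d) *
      (Polynomial.X ^ d 0 * Polynomial.C b ^ d 1) := by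
  rw [Rb, MvPolynomial.aeval_def, MvPolynomial.eval₂_eq']
  refine Finset.sum_congr rfl fun d _ => ?_
  rw [Fin.prod_univ_two]
  rfl

theorem bv_sum (φ : MvPolynomial (Fin 2) ℤ) (a b : ℤ) :
    bv φ a b = ∑ d ∈ φ.support, φ.coeff d * (a ^ d 0 * b ^ d 1) := by
  rw [bv, MvPolynomial.eval_eq']
  refine Finset.sum_congr rfl fun d _ => ?_
  rw [Fin.prod_univ_two]
  rfl

theorem Rb_eval (φ : MvPolynomial (Fin 2) ℤ) (a b : ℤ) : (Rb φ b).eval a = bv φ a b := by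
  rw [Rb_sum, bv_sum, Polynomial.eval_finsetSum]
  refine Finset.sum_congr rfl fun d _ => ?_
  rw [Polynomial.eval_mul, Polynomial.eval_mul, Polynomial.eval_pow, Polynomial.eval_pow,
    Polynomial.eval_C, Polynomial.eval_C, Polynomial.eval_X]

theorem deg_add {φ : MvPolynomial (Fin 2) ℤ} {s : ℕ} (hφ : φ.IsHomogeneous s)
    {d : Fin 2 →₀ ℕ} (hd : d ∈ φ.support) : d 0 + d 1 = s := by
  have h1 : d.degree = s := by
    rw [Finsupp.degree_eq_weight_one]
    exact hφ (MvPolynomial.mem_support_iff.mp hd)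
  rw [Finsupp.degree_eq_sum, Fin.sum_univ_two] at h1
  exact h1

theorem Rb_coeff {φ : MvPolynomial (Fin 2) ℤ} {s : ℕ} (hφ : φ.IsHomogeneous s) (b : ℤ) :
    (Rb φ b).coeff s = bv φ 1 0 := by
  rw [Rb_sum, bv_sum, Polynomial.finsetSum_coeff]
  refine Finset.sum_congr rfl fun d hd => ?_
  have h := deg_add hφ hd
  rw [Polynomial.coeff_C_mul, ← Polynomial.C_pow, Polynomial.coeff_mul_C,
    Polynomial.coeff_X_pow, one_pow, one_mul]
  by_cases h1 : d 1 = 0
  · rw [h1, pow_zero, pow_zero, if_pos (by omega)]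
    ring
  · rw [if_neg (by omega), zero_pow h1]
    ring

theorem Rb_natDegree {φ : MvPolynomial (Fin 2) ℤ} {s : ℕ} (hφ : φ.IsHomogeneous s)
    (h0 : bv φ 1 0 ≠ 0) (b : ℤ) : (Rb φ b).natDegree = s := by
  refine le_antisymm ?_ ?_
  · rw [Rb_sum]
    refine Polynomial.natDegree_sum_le_of_forall_le _ _ fun d hd => ?_
    have h := deg_add hφ hd
    rw [← Polynomial.C_pow]
    refine (Polynomial.natDegree_C_mul_le _ _).trans ?_
    refine (Polynomial.natDegree_mul_C_le _ _).trans ?_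
    refine (Polynomial.natDegree_X_pow_le _).trans ?_
    omega
  · refine Polynomial.le_natDegree_of_ne_zero ?_
    rw [Rb_coeff hφ]
    exact h0

theorem smv (hnlb : NlbStmt) (hnct : NctStmt) : SmvStmt := by
  classical
  intro φ s hφ h0 hs ε hε
  have hs0 : (0 : ℝ) < s := by exact_mod_cast hs
  set ε' : ℝ := min ε s with hε'
  have hε'0 : 0 < ε' := lt_min hε hs0
  have hε's : ε' ≤ s := min_le_right _ _
  refine ⟨9 * s, ε' / s, div_pos hε'0 hs0, fun H hH => ?_⟩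
  have hH1 : (1 : ℝ) ≤ H := by exact_mod_cast hH
  have hH0 : (0 : ℝ) < H := by linarith
  set ρ : ℝ := (H : ℝ) ^ (1 - ε' / s) with hρ
  have hex : 0 ≤ 1 - ε' / s := by
    rw [sub_nonneg, div_le_one hs0]
    exact hε's
  have hρ1 : 1 ≤ ρ := Real.one_le_rpow hH1 hex
  have hρs : ρ ^ s = (H : ℝ) ^ ((s : ℝ) - ε') := by
    rw [hρ, ← Real.rpow_natCast, ← Real.rpow_mul hH0.le]
    congr 1
    field_simp
  have hfin : ∀ b, {c : ℤ | Near (Rb φ b) ρ c}.Finite := fun b =>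
    (hnct (Rb φ b) s ρ (Rb_natDegree hφ h0 b) (by linarith)).1
  have hcard : ∀ b, ((hfin b).toFinset.card : ℝ) ≤ s * (2 * ρ + 1) := by
    intro b
    have h1 := (hnct (Rb φ b) s ρ (Rb_natDegree hφ h0 b) (by linarith)).2
    rw [Set.ncard_eq_toFinset_card _ (hfin b)] at h1
    exact h1
  set T : Finset (ℤ × ℤ) := (Finset.Icc (-(H : ℤ)) H).biUnion
    (fun b => (hfin b).toFinset.image (fun a => (a, b))) with hT
  have hsub : {x : ℤ × ℤ | x ∈ SB H ∧ |(bv φ x.1 x.2 : ℝ)| < (H : ℝ) ^ ((s : ℝ) - ε)} ⊆ T := by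
    rintro ⟨a, b⟩ ⟨⟨_, hb⟩, hx⟩
    rw [Finset.mem_coe, hT, Finset.mem_biUnion]
    refine ⟨b, ?_, ?_⟩
    · rw [Finset.mem_Icc]
      exact abs_le.mp hb
    · rw [Finset.mem_image]
      refine ⟨a, ?_, rfl⟩
      rw [Set.Finite.mem_toFinset]
      by_contra hnear
      have hne : Rb φ b ≠ 0 := by
        intro h
        have h1 := Rb_coeff hφ b
        rw [h, Polynomial.coeff_zero] at h1
        exact h0 h1.symm
      have h1 := hnlb (Rb φ b) s ρ a (Rb_natDegree hφ h0 b) hne (by linarith) hnear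
      have h2 : (Rb φ b).leadingCoeff = bv φ 1 0 := by
        rw [Polynomial.leadingCoeff, Rb_natDegree hφ h0 b, Rb_coeff hφ]
      rw [h2, hρs, Rb_eval] at h1
      have h3 : (1 : ℝ) ≤ |((bv φ 1 0 : ℤ) : ℝ)| := by
        rw [← Int.cast_abs]
        exact_mod_cast Int.one_le_abs h0
      have h4 : (H : ℝ) ^ ((s : ℝ) - ε) ≤ (H : ℝ) ^ ((s : ℝ) - ε') :=
        Real.rpow_le_rpow_of_exponent_le hH1 (by have := min_le_left ε (s : ℝ); linarith)
      have h5 : (H : ℝ) ^ ((s : ℝ) - ε') ≤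
          |((bv φ 1 0 : ℤ) : ℝ)| * (H : ℝ) ^ ((s : ℝ) - ε') :=
        le_mul_of_one_le_left (Real.rpow_nonneg hH0.le _) h3
      exact absurd hx (not_lt.mpr (h4.trans (h5.trans h1)))
  have h1 : ({x : ℤ × ℤ | x ∈ SB H ∧ |(bv φ x.1 x.2 : ℝ)| < (H : ℝ) ^ ((s : ℝ) - ε)}.ncard : ℝ) ≤
      (T.card : ℝ) := by
    have h2 := Set.ncard_le_ncard hsub (Finset.finite_toSet T)
    rw [Set.ncard_coe_finset] at h2
    exact_mod_cast h2
  refine h1.trans ?_
  have h2 : (T.card : ℝ) ≤ ∑ b ∈ Finset.Icc (-(H : ℤ)) H, (s : ℝ) * (2 * ρ + 1) := by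
    have h3 : T.card ≤ ∑ b ∈ Finset.Icc (-(H : ℤ)) H, ((hfin b).toFinset).card := by
      refine Finset.card_biUnion_le.trans ?_
      exact Finset.sum_le_sum fun b _ => Finset.card_image_le
    calc (T.card : ℝ) ≤ ((∑ b ∈ Finset.Icc (-(H : ℤ)) H, ((hfin b).toFinset).card : ℕ) : ℝ) := by
          exact_mod_cast h3
      _ = ∑ b ∈ Finset.Icc (-(H : ℤ)) H, (((hfin b).toFinset).card : ℝ) := by
          rw [Nat.cast_sum]
      _ ≤ _ := Finset.sum_le_sum fun b _ => hcard b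
  refine h2.trans ?_
  rw [Finset.sum_const, nsmul_eq_mul, Int.card_Icc]
  have h3 : (((H : ℤ) + 1 - -(H : ℤ)).toNat : ℝ) = 2 * H + 1 := by
    have : ((H : ℤ) + 1 - -(H : ℤ)).toNat = 2 * H + 1 := by omega
    rw [this]
    push_cast
    ring
  rw [h3]
  have h4 : (H : ℝ) ^ (2 - ε' / s) = H * ρ := by
    rw [hρ, ← Real.rpow_one_add' hH0.le (by linarith)]
    congr 1
    ring
  rw [h4]
  have h5 : (2 * (H : ℝ) + 1) ≤ 3 * H := by linarith
  have h6 : (2 * ρ + 1) ≤ 3 * ρ := by linarith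
  calc (2 * (H : ℝ) + 1) * (s * (2 * ρ + 1)) ≤ (3 * H) * (s * (3 * ρ)) := by
        gcongr
    _ = 9 * s * (H * ρ) := by ring

end Pool.Agent.EVF.H13
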